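import Mathlib

/-!
# The dual of the martingale Hardy space `H_p`, `0 < p < 1`, is not `Λ_{p,q}`

For all `0 < p < 1 < q < ∞` we give a filtered probability space and a bounded function `g` that
defines a continuous functional on `H_p` which is not represented by any element of `Λ_{p,q}`.
-/

set_option autoImplicit false

open MeasureTheory Filter Topology
open scoped ENNReal NNReal

namespace Pool.Agent.Results.MP_fbca0c_an.DualityFails

section Defs

variable {Ω : Type*} {m0 : MeasurableSpace Ω}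

/-- The martingale differences of `f` (the filtration is indexed from `0`):
`df_0 = E_0 f` and `df_{k+1} = E_{k+1} f - E_k f`. -/
noncomputable def mdiff (μ : Measure Ω) (𝓕 : Filtration ℕ m0) (f : Ω → ℂ) : ℕ → Ω → ℂ
  | 0 => μ[f | 𝓕 0]
  | (k + 1) => μ[f | 𝓕 (k + 1)] - μ[f | 𝓕 k]

/-- The square function `(∑_k |df_k|²)^{1/2}`. -/
noncomputable def sqf (μ : Measure Ω) (𝓕 : Filtration ℕ m0) (f : Ω → ℂ) (ω : Ω) : ℝ≥0∞ :=
  (∑' k, ‖mdiff μ 𝓕 f k ω‖ₑ ^ (2 : ℝ)) ^ (1 / 2 : ℝ)

/-- The quasi-norm of `H_p`, the `L_p` quasi-norm of the square function. -/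
noncomputable def hpNorm (μ : Measure Ω) (𝓕 : Filtration ℕ m0) (p : ℝ) (f : Ω → ℂ) : ℝ≥0∞ :=
  (∫⁻ ω, (sqf μ 𝓕 f ω) ^ p ∂μ) ^ (1 / p)

/-- The mean oscillation `(μ(A)⁻¹ ∫_A |g - E_k g|^q dμ)^{1/q}`. -/
noncomputable def osc (μ : Measure Ω) (𝓕 : Filtration ℕ m0) (q : ℝ) (g : Ω → ℂ) (k : ℕ)
    (A : Set Ω) : ℝ≥0∞ :=
  ((μ A)⁻¹ * ∫⁻ ω in A, ‖g ω - (μ[g | 𝓕 k]) ω‖ₑ ^ q ∂μ) ^ (1 / q)

/-- The norm of `Λ_{p,q}`: the supremum over `k` and over the sets `A` in the `k`-th σ-algebra of
positive measure of `μ(A)^{1-1/p} (osc + ‖dg_k‖_∞)`. -/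
noncomputable def lamNorm (μ : Measure Ω) (𝓕 : Filtration ℕ m0) (p q : ℝ) (g : Ω → ℂ) : ℝ≥0∞ :=
  ⨆ (k : ℕ) (A : Set Ω) (_ : MeasurableSet[𝓕 k] A) (_ : μ A ≠ 0),
    (μ A) ^ (1 - 1 / p) * (osc μ 𝓕 q g k A + eLpNorm (mdiff μ 𝓕 g k) ∞ μ)

/-- The smaller, local variant of the norm of `Λ_{p,q}`, in which `‖dg_k‖_∞` is replaced by the
essential supremum of `|dg_k|` over `A`. -/
noncomputable def lamNormLocal (μ : Measure Ω) (𝓕 : Filtration ℕ m0) (p q : ℝ) (g : Ω → ℂ) :
    ℝ≥0∞ :=
  ⨆ (k : ℕ) (A : Set Ω) (_ : MeasurableSet[𝓕 k] A) (_ : μ A ≠ 0),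
    (μ A) ^ (1 - 1 / p) * (osc μ 𝓕 q g k A + eLpNorm (mdiff μ 𝓕 g k) ∞ (μ.restrict A))

/-- `f ↦ ∫ f g dμ` is a bounded functional on `L_∞` for the quasi-norm of `H_p`, that is, it
extends to a continuous linear functional on `H_p`. -/
def BddOnHp (μ : Measure Ω) (𝓕 : Filtration ℕ m0) (p : ℝ) (g : Ω → ℂ) : Prop :=
  ∃ C : ℝ≥0, ∀ f : Ω → ℂ, MemLp f ∞ μ → ‖∫ ω, f ω * g ω ∂μ‖ₑ ≤ C * hpNorm μ 𝓕 p f

/-- `g` and `g'` define the same functional on `L_∞`. -/
def SameFunctional (μ : Measure Ω) (g g' : Ω → ℂ) : Prop :=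
  ∀ f : Ω → ℂ, MemLp f ∞ μ → ∫ ω, f ω * g ω ∂μ = ∫ ω, f ω * g' ω ∂μ

end Defs

lemma lamNormLocal_le {Ω : Type*} {m0 : MeasurableSpace Ω} (μ : Measure Ω) (𝓕 : Filtration ℕ m0)
    (p q : ℝ) (g : Ω → ℂ) : lamNormLocal μ 𝓕 p q g ≤ lamNorm μ 𝓕 p q g := by
  unfold lamNormLocal lamNorm
  gcongr
  exact Measure.restrict_le_self

/-! ### The example -/

/-- The probability space. -/
abbrev Om : Type := ℕ × Bool

/-- The masses of the atoms. -/
noncomputable def ma (x : Om) : ℝ := if x.2 then 3 / 8 * (1 / 4) ^ x.1 else 1 / 4 * (1 / 2) ^ x.1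

lemma ma_pos (x : Om) : 0 < ma x := by
  unfold ma; split_ifs <;> positivity

instance instMS : MeasurableSpace Om := ⊤

instance : DiscreteMeasurableSpace Om := ⟨fun _ => trivial⟩

/-- The measure. -/
noncomputable def mu : Measure Om := Measure.sum (fun x => ENNReal.ofReal (ma x) • Measure.dirac x)

lemma mu_singleton (x : Om) : mu {x} = ENNReal.ofReal (ma x) :=
  Measure.sum_smul_dirac_singleton

lemma tsum_ma : ∑' x : Om, ENNReal.ofReal (ma x) = 1 := by
  rw [ENNReal.tsum_prod']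
  have h1 : ∀ j : ℕ, ∑' b : Bool, ENNReal.ofReal (ma (j, b))
      = ENNReal.ofReal (1 / 4 * (1 / 2) ^ j + 3 / 8 * (1 / 4) ^ j) := by
    intro j
    rw [tsum_bool, ENNReal.ofReal_add (by positivity) (by positivity)]
    simp [ma]
  simp_rw [h1]
  have h2 : HasSum (fun j : ℕ => 1 / 4 * (1 / 2 : ℝ) ^ j + 3 / 8 * (1 / 4 : ℝ) ^ j)
      (1 / 4 * 2 + 3 / 8 * (1 - 1 / 4)⁻¹) := by
    apply HasSum.add
    · exact hasSum_geometric_two.mul_left _
    · exact (hasSum_geometric_of_lt_one (by norm_num) (by norm_num)).mul_left _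
  rw [← ENNReal.ofReal_tsum_of_nonneg (fun j => by positivity) h2.summable, h2.tsum_eq]
  norm_num

instance : IsProbabilityMeasure mu := by
  constructor
  unfold mu
  rw [Measure.sum_apply _ MeasurableSet.univ]
  simp [tsum_ma]

/-- The σ-algebra generated by the first coordinate. -/
@[instance_reducible] def m1 : MeasurableSpace Om := MeasurableSpace.comap Prod.fst ⊤

/-- The filtration: the first coordinate, then everything. -/
def FF : Filtration ℕ instMS where
  seq k := if k = 0 then m1 else ⊤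
  mono' := by
    intro i j hij
    by_cases hj : j = 0
    · have hi : i = 0 := by omega
      simp [hi, hj]
    · simp [hj]
  le' i := le_top

lemma FF_zero : (FF 0 : MeasurableSpace Om) = m1 := rfl

lemma FF_succ (k : ℕ) : (FF (k + 1) : MeasurableSpace Om) = ⊤ := rfl

lemma iSup_FF : ⨆ k, (FF k : MeasurableSpace Om) = instMS :=
  le_antisymm (iSup_le fun _ => le_top) (le_iSup_of_le 1 (by rw [FF_succ]; exact le_top))

lemma ae_iff_all (P : Om → Prop) (h : ∀ᵐ x ∂mu, P x) (x : Om) : P x := by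
  by_contra hx
  have h1 : mu {x} = 0 := measure_mono_null (by intro y hy; rw [Set.mem_singleton_iff.1 hy]; exact hx) h
  rw [mu_singleton, ENNReal.ofReal_eq_zero] at h1
  linarith [ma_pos x]

lemma condExp_top (k : ℕ) (f : Om → ℂ) (hf : Integrable f mu) : mu[f | FF (k + 1)] = f := by
  rw [FF_succ]
  exact condExp_of_stronglyMeasurable le_top (Measurable.of_discrete.stronglyMeasurable) hf

lemma condExp_const (f : Om → ℂ) (j : ℕ) (b : Bool) :
    (mu[f | FF 0]) (j, b) = (mu[f | FF 0]) (j, false) := by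
  have h1 : Measurable[m1] (mu[f | FF 0]) := stronglyMeasurable_condExp.measurable
  obtain ⟨s, -, hs⟩ := h1 (measurableSet_singleton ((mu[f | FF 0]) (j, false)))
  have h2 : ((j, false) : Om) ∈ Prod.fst ⁻¹' s := by rw [hs]; rfl
  have h3 : ((j, b) : Om) ∈ Prod.fst ⁻¹' s := h2
  rw [hs] at h3
  exact h3

lemma setIntegral_pair (f : Om → ℂ) (hf : Integrable f mu) (j : ℕ) :
    ∫ x in (Prod.fst ⁻¹' {j} : Set Om), f x ∂mu
      = (ma (j, true) : ℂ) * f (j, true) + (ma (j, false) : ℂ) * f (j, false) := by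
  have h1 : (Prod.fst ⁻¹' {j} : Set Om) = (({(j, true), (j, false)} : Finset Om) : Set Om) := by
    ext ⟨a, b⟩
    cases b <;> simp [Prod.ext_iff]
  rw [h1, setIntegral_finset _ hf.integrableOn, Finset.sum_pair (by simp)]
  simp only [Measure.real, mu_singleton, ENNReal.toReal_ofReal (ma_pos _).le, Complex.real_smul]

lemma condExp_formula (f : Om → ℂ) (hf : Integrable f mu) (j : ℕ) :
    ((ma (j, true) : ℂ) + (ma (j, false) : ℂ)) * (mu[f | FF 0]) (j, false)
      = (ma (j, true) : ℂ) * f (j, true) + (ma (j, false) : ℂ) * f (j, false) := by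
  have hm : MeasurableSet[FF 0] (Prod.fst ⁻¹' {j} : Set Om) := ⟨{j}, trivial, rfl⟩
  have h1 := setIntegral_condExp (FF.le 0) hf hm
  rw [setIntegral_pair _ integrable_condExp, setIntegral_pair _ hf, condExp_const f j true] at h1
  rw [← h1]
  ring

lemma sqf_ge (f : Om → ℂ) (k : ℕ) (x : Om) : ‖mdiff mu FF f k x‖ₑ ≤ sqf mu FF f x := by
  unfold sqf
  have h1 : ‖mdiff mu FF f k x‖ₑ ^ (2 : ℝ) ≤ ∑' k, ‖mdiff mu FF f k x‖ₑ ^ (2 : ℝ) :=
    ENNReal.le_tsum k
  have h2 := ENNReal.rpow_le_rpow h1 (by norm_num : (0 : ℝ) ≤ 1 / 2)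
  rw [← ENNReal.rpow_mul, show (2 : ℝ) * (1 / 2) = 1 by norm_num, ENNReal.rpow_one] at h2
  exact h2

/-- The function defining the functional. -/
noncomputable def gg (p : ℝ) (x : Om) : ℂ :=
  if x.2 then ((ma (x.1, false) ^ (1 / p - 1) : ℝ) : ℂ) else 0

lemma ma_le_one (x : Om) : ma x ≤ 1 := by
  unfold ma
  split_ifs
  · have : (1 / 4 : ℝ) ^ x.1 ≤ 1 := pow_le_one₀ (by norm_num) (by norm_num)
    linarith
  · have : (1 / 2 : ℝ) ^ x.1 ≤ 1 := pow_le_one₀ (by norm_num) (by norm_num)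
    linarith

lemma norm_gg_le {p : ℝ} (hp0 : 0 < p) (hp1 : p < 1) (x : Om) : ‖gg p x‖ ≤ 1 := by
  unfold gg
  split_ifs
  · rw [Complex.norm_real, Real.norm_eq_abs, abs_of_nonneg (Real.rpow_nonneg (ma_pos _).le _)]
    apply Real.rpow_le_one (ma_pos _).le (ma_le_one _)
    have : 1 < 1 / p := by rw [lt_div_iff₀ hp0]; linarith
    linarith
  · simp

lemma memLp_gg {p : ℝ} (hp0 : 0 < p) (hp1 : p < 1) : MemLp (gg p) ∞ mu :=
  memLp_top_of_bound (Measurable.of_discrete.aestronglyMeasurable) 1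
    (Eventually.of_forall (norm_gg_le hp0 hp1))

lemma ma_true_le (j : ℕ) : ma (j, true) ≤ 3 / 2 * ma (j, false) := by
  simp only [ma]
  have h1 : (1 / 4 : ℝ) ^ j ≤ (1 / 2) ^ j := by gcongr; norm_num
  simp only [if_true, Bool.false_eq_true, if_false]
  linarith

/-- The main pointwise estimate. -/
lemma point_bound (f : Om → ℂ) (hf : Integrable f mu) (j : ℕ) :
    ENNReal.ofReal (ma (j, true)) * ‖f (j, true)‖ₑ
      ≤ 3 * (ENNReal.ofReal (ma (j, false)) * sqf mu FF f (j, false)) := by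
  have h0 := sqf_ge f 0 (j, false)
  have h1 := sqf_ge f 1 (j, false)
  simp only [mdiff, zero_add] at h0 h1
  rw [show (1 : ℕ) = 0 + 1 from rfl, condExp_top 0 f hf] at h1
  set E0 := (mu[f | FF 0]) (j, false) with hE0
  have hform := condExp_formula f hf j
  rw [← hE0] at hform
  have h2 : (ma (j, true) : ℂ) * f (j, true)
      = (ma (j, true) : ℂ) * E0 - (ma (j, false) : ℂ) * (f (j, false) - E0) := by
    linear_combination -hform
  have h3 : ma (j, true) * ‖f (j, true)‖
      ≤ ma (j, true) * ‖E0‖ + ma (j, false) * ‖f (j, false) - E0‖ := by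
    have := norm_sub_le ((ma (j, true) : ℂ) * E0) ((ma (j, false) : ℂ) * (f (j, false) - E0))
    rw [← h2, norm_mul, norm_mul, norm_mul, Complex.norm_real, Complex.norm_real,
      Real.norm_eq_abs, Real.norm_eq_abs, abs_of_pos (ma_pos _), abs_of_pos (ma_pos _)] at this
    exact this
  have h4 : ma (j, true) * ‖f (j, true)‖
      ≤ ma (j, false) * (3 / 2 * ‖E0‖ + ‖f (j, false) - E0‖) := by
    have := mul_le_mul_of_nonneg_right (ma_true_le j) (norm_nonneg E0)
    linarith
  have h5 : ENNReal.ofReal (ma (j, true)) * ‖f (j, true)‖ₑ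
      ≤ ENNReal.ofReal (ma (j, false)) *
        (ENNReal.ofReal (3 / 2) * ‖E0‖ₑ + ‖f (j, false) - E0‖ₑ) := by
    rw [← ofReal_norm, ← ofReal_norm, ← ofReal_norm,
      ← ENNReal.ofReal_mul (ma_pos _).le, ← ENNReal.ofReal_mul (by norm_num),
      ← ENNReal.ofReal_add (by positivity) (by positivity), ← ENNReal.ofReal_mul (ma_pos _).le]
    exact ENNReal.ofReal_le_ofReal h4
  refine h5.trans ?_
  have h6 : ENNReal.ofReal (3 / 2) * ‖E0‖ₑ + ‖f (j, false) - E0‖ₑ
      ≤ 3 * sqf mu FF f (j, false) := by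
    calc ENNReal.ofReal (3 / 2) * ‖E0‖ₑ + ‖f (j, false) - E0‖ₑ
        ≤ ENNReal.ofReal (3 / 2) * sqf mu FF f (j, false) + 1 * sqf mu FF f (j, false) := by
          rw [one_mul]
          exact add_le_add (mul_le_mul_right h0 _) h1
      _ = (ENNReal.ofReal (3 / 2) + 1) * sqf mu FF f (j, false) := by rw [add_mul]
      _ ≤ 3 * sqf mu FF f (j, false) := by
          apply mul_le_mul_left
          rw [show (1 : ℝ≥0∞) = ENNReal.ofReal 1 by simp, ← ENNReal.ofReal_add (by norm_num)
            (by norm_num), show (3 : ℝ≥0∞) = ENNReal.ofReal 3 by simp]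
          exact ENNReal.ofReal_le_ofReal (by norm_num)
  calc ENNReal.ofReal (ma (j, false)) *
        (ENNReal.ofReal (3 / 2) * ‖E0‖ₑ + ‖f (j, false) - E0‖ₑ)
      ≤ ENNReal.ofReal (ma (j, false)) * (3 * sqf mu FF f (j, false)) := mul_le_mul_right h6 _
    _ = 3 * (ENNReal.ofReal (ma (j, false)) * sqf mu FF f (j, false)) := by ring

/-- `ℓ^p ⊆ ℓ^1` for `0 < p ≤ 1`. -/
lemma tsum_le_rpow {p : ℝ} (hp0 : 0 < p) (hp1 : p ≤ 1) (a : ℕ → ℝ≥0∞) :
    ∑' j, a j ≤ (∑' j, a j ^ p) ^ (1 / p) := by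
  have h1 : ∀ s : Finset ℕ, (∑ j ∈ s, a j) ^ p ≤ ∑ j ∈ s, a j ^ p := by
    intro s
    induction s using Finset.induction with
    | empty => simp [hp0]
    | insert i s hi ih =>
      rw [Finset.sum_insert hi, Finset.sum_insert hi]
      exact (ENNReal.rpow_add_le_add_rpow _ _ hp0.le hp1).trans (add_le_add_right ih _)
  rw [ENNReal.tsum_eq_iSup_sum]
  apply iSup_le
  intro s
  have h2 : (∑ j ∈ s, a j) ^ p ≤ ∑' j, a j ^ p := (h1 s).trans (ENNReal.sum_le_tsum s)
  have h3 := ENNReal.rpow_le_rpow h2 (by positivity : 0 ≤ 1 / p)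
  rwa [← ENNReal.rpow_mul, mul_one_div_cancel hp0.ne', ENNReal.rpow_one] at h3

lemma bddOnHp_gg {p : ℝ} (hp0 : 0 < p) (hp1 : p < 1) : BddOnHp mu FF p (gg p) := by
  refine ⟨3, fun f hf => ?_⟩
  have hfi : Integrable f mu := hf.integrable (by simp)
  have hexp : 0 < 1 / p - 1 := by
    have : 1 < 1 / p := by rw [lt_div_iff₀ hp0]; linarith
    linarith
  calc ‖∫ ω, f ω * gg p ω ∂mu‖ₑ ≤ ∫⁻ ω, ‖f ω * gg p ω‖ₑ ∂mu := enorm_integral_le_lintegral_enorm _
    _ = ∑' x : Om, ‖f x * gg p x‖ₑ * mu {x} := lintegral_countable' _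
    _ = ∑' j : ℕ, ‖f (j, true) * gg p (j, true)‖ₑ * mu {((j, true) : Om)} := by
        rw [ENNReal.tsum_prod']
        apply tsum_congr
        intro j
        rw [tsum_bool]
        simp [gg]
    _ ≤ ∑' j : ℕ, 3 * (ENNReal.ofReal (ma (j, false) ^ (1 / p)) * sqf mu FF f (j, false)) := by
        apply ENNReal.tsum_le_tsum
        intro j
        rw [mu_singleton, enorm_mul]
        have h1 : ‖gg p (j, true)‖ₑ = ENNReal.ofReal (ma (j, false) ^ (1 / p - 1)) := by
          rw [← ofReal_norm]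
          congr 1
          simp only [gg, if_true, Complex.norm_real, Real.norm_eq_abs]
          exact abs_of_nonneg (Real.rpow_nonneg (ma_pos _).le _)
        rw [h1]
        have h2 := mul_le_mul_left (point_bound f hfi j) (ENNReal.ofReal (ma (j, false) ^ (1 / p - 1)))
        have h3 : ENNReal.ofReal (ma (j, false) ^ (1 / p))
            = ENNReal.ofReal (ma (j, false)) * ENNReal.ofReal (ma (j, false) ^ (1 / p - 1)) := by
          rw [← ENNReal.ofReal_mul (ma_pos _).le]
          congr 1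
          rw [Real.rpow_sub_one (ma_pos _).ne', mul_div_cancel₀ _ (ma_pos _).ne']
        rw [h3]
        calc ‖f (j, true)‖ₑ * ENNReal.ofReal (ma (j, false) ^ (1 / p - 1))
              * ENNReal.ofReal (ma (j, true))
            = ENNReal.ofReal (ma (j, true)) * ‖f (j, true)‖ₑ
              * ENNReal.ofReal (ma (j, false) ^ (1 / p - 1)) := by ring
          _ ≤ _ := h2
          _ = _ := by ring
    _ = 3 * ∑' j : ℕ, (ENNReal.ofReal (ma (j, false) ^ (1 / p)) * sqf mu FF f (j, false)) :=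
        ENNReal.tsum_mul_left
    _ ≤ 3 * (∑' j : ℕ, (ENNReal.ofReal (ma (j, false) ^ (1 / p)) * sqf mu FF f (j, false)) ^ p)
          ^ (1 / p) := mul_le_mul_right (tsum_le_rpow hp0 hp1.le _) _
    _ ≤ 3 * (∑' x : Om, sqf mu FF f x ^ p * mu {x}) ^ (1 / p) := by
        apply mul_le_mul_right
        apply ENNReal.rpow_le_rpow _ (by positivity)
        rw [ENNReal.tsum_prod']
        apply ENNReal.tsum_le_tsum
        intro j
        rw [tsum_bool]
        refine le_trans (le_of_eq ?_) le_self_add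
        rw [mu_singleton, ENNReal.mul_rpow_of_nonneg _ _ hp0.le,
          ENNReal.ofReal_rpow_of_nonneg (Real.rpow_nonneg (ma_pos _).le _) hp0.le,
          ← Real.rpow_mul (ma_pos _).le, one_div_mul_cancel hp0.ne', Real.rpow_one, mul_comm]
    _ = (3 : ℝ≥0) * hpNorm mu FF p f := by
        unfold hpNorm
        rw [lintegral_countable']
        rfl

lemma eq_of_same {g g' : Om → ℂ} (h : SameFunctional mu g g') : g = g' := by
  funext x
  have h1 := h (Set.indicator {x} (fun _ => 1)) (memLp_top_of_bound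
    (Measurable.of_discrete.aestronglyMeasurable) 1 (Eventually.of_forall (fun y => by
      by_cases hy : y ∈ ({x} : Set Om)
      · rw [Set.indicator_of_mem hy]; simp
      · rw [Set.indicator_of_notMem hy]; simp)))
  have h2 : ∀ u : Om → ℂ, ∫ ω, Set.indicator {x} (fun _ => (1 : ℂ)) ω * u ω ∂mu
      = (ma x : ℂ) * u x := by
    intro u
    have h3 : (fun ω => Set.indicator {x} (fun _ => (1 : ℂ)) ω * u ω)
        = Set.indicator {x} u := by
      funext ω
      by_cases hy : ω ∈ ({x} : Set Om)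
      · rw [Set.indicator_of_mem hy, Set.indicator_of_mem hy, one_mul]
      · rw [Set.indicator_of_notMem hy, Set.indicator_of_notMem hy, zero_mul]
    rw [h3, integral_indicator (measurableSet_singleton x), integral_singleton]
    simp only [Measure.real, mu_singleton, ENNReal.toReal_ofReal (ma_pos _).le, Complex.real_smul]
  rw [h2, h2] at h1
  have h4 : (ma x : ℂ) ≠ 0 := by exact_mod_cast (ma_pos x).ne'
  exact mul_left_cancel₀ h4 h1

lemma lamNormLocal_gg {p : ℝ} (q : ℝ) (hp0 : 0 < p) (hp1 : p < 1) :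
    lamNormLocal mu FF p q (gg p) = ∞ := by
  have hexp : 0 < 1 / p - 1 := by
    have : 1 < 1 / p := by rw [lt_div_iff₀ hp0]; linarith
    linarith
  have hgi : Integrable (gg p) mu := (memLp_gg hp0 hp1).integrable (by simp)
  have key : ∀ j : ℕ, ENNReal.ofReal (2 / 5 * ((2 / 3) * 2 ^ j) ^ (1 / p - 1))
      ≤ lamNormLocal mu FF p q (gg p) := by
    intro j
    have hmeas : MeasurableSet[FF 1] ({(j, true)} : Set Om) := trivial
    have hne : mu ({(j, true)} : Set Om) ≠ 0 := by
      rw [mu_singleton]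
      simpa using ma_pos _
    unfold lamNormLocal
    refine le_trans ?_ (le_iSup_of_le 1 (le_iSup_of_le {(j, true)} (le_iSup_of_le hmeas
      (le_iSup_of_le hne le_rfl))))
    have h1 : ENNReal.ofReal (2 / 5 * ma (j, false) ^ (1 / p - 1))
        ≤ eLpNorm (mdiff mu FF (gg p) 1) ∞ (mu.restrict {(j, true)}) := by
      have hval : mdiff mu FF (gg p) 1 (j, true)
          = (((ma (j, false) / (ma (j, true) + ma (j, false))) * ma (j, false) ^ (1 / p - 1) : ℝ) :
            ℂ) := by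
        have hf := condExp_formula (gg p) hgi j
        have h2 : mdiff mu FF (gg p) 1 (j, true) = gg p (j, true) - (mu[gg p | FF 0]) (j, false) := by
          rw [← condExp_const (gg p) j true]
          show (mu[gg p | FF (0 + 1)]) (j, true) - _ = _
          rw [condExp_top 0 _ hgi]
        have h3 : gg p (j, true) = ((ma (j, false) ^ (1 / p - 1) : ℝ) : ℂ) := by simp [gg]
        have h4 : gg p (j, false) = 0 := by simp [gg]
        rw [h3, h4, mul_zero, add_zero] at hf
        rw [h2, h3]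
        have h5 : ((ma (j, true) : ℂ) + (ma (j, false) : ℂ)) ≠ 0 := by
          have : ma (j, true) + ma (j, false) ≠ 0 := by
            have := ma_pos (j, true); have := ma_pos (j, false); positivity
          exact_mod_cast this
        have h6 : (mu[gg p | FF 0]) (j, false) = (ma (j, true) : ℂ) *
            ((ma (j, false) ^ (1 / p - 1) : ℝ) : ℂ) / ((ma (j, true) : ℂ) + (ma (j, false) : ℂ)) := by
          rw [eq_div_iff h5, mul_comm, hf]
        rw [h6]
        push_cast
        field_simp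
        ring
      have hge : (2 / 5 : ℝ) ≤ ma (j, false) / (ma (j, true) + ma (j, false)) := by
        rw [le_div_iff₀ (by have := ma_pos (j, true); have := ma_pos (j, false); positivity)]
        have := ma_true_le j
        linarith
      have hr0 : 0 ≤ ma (j, false) ^ (1 / p - 1) := Real.rpow_nonneg (ma_pos _).le _
      have hnorm : ENNReal.ofReal (2 / 5 * ma (j, false) ^ (1 / p - 1))
          ≤ ‖mdiff mu FF (gg p) 1 (j, true)‖ₑ := by
        rw [hval, ← ofReal_norm, Complex.norm_real, Real.norm_eq_abs]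
        apply ENNReal.ofReal_le_ofReal
        refine le_trans ?_ (le_abs_self _)
        exact mul_le_mul_of_nonneg_right hge hr0
      refine hnorm.trans ?_
      rw [eLpNorm_exponent_top]
      by_contra hcon
      push Not at hcon
      have h7 := ae_lt_of_essSup_lt hcon
      rw [ae_restrict_iff' (measurableSet_singleton _)] at h7
      have h8 := ae_iff_all _ h7 (j, true) rfl
      exact lt_irrefl _ h8
    have h9 : mu ({(j, true)} : Set Om) ^ (1 - 1 / p)
        = ENNReal.ofReal (ma (j, true) ^ (1 - 1 / p)) := by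
      rw [mu_singleton, ENNReal.ofReal_rpow_of_pos (ma_pos _)]
    calc ENNReal.ofReal (2 / 5 * ((2 / 3) * 2 ^ j) ^ (1 / p - 1))
        = ENNReal.ofReal (ma (j, true) ^ (1 - 1 / p))
          * ENNReal.ofReal (2 / 5 * ma (j, false) ^ (1 / p - 1)) := by
          rw [← ENNReal.ofReal_mul (Real.rpow_nonneg (ma_pos _).le _)]
          congr 1
          have h10 : (2 / 3 : ℝ) * 2 ^ j = ma (j, false) / ma (j, true) := by
            simp only [ma, if_true, Bool.false_eq_true, if_false]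
            have e1 : (1 / 4 : ℝ) ^ j = (1 / 2) ^ j * (1 / 2) ^ j := by
              rw [← mul_pow]; norm_num
            have e2 : (2 : ℝ) ^ j * (1 / 2) ^ j = 1 := by
              rw [← mul_pow]; norm_num
            have e3 : (0 : ℝ) < (1 / 2) ^ j := by positivity
            rw [e1]
            field_simp
            nlinarith [e2]
          rw [h10, Real.div_rpow (ma_pos _).le (ma_pos _).le,
            show (1 - 1 / p) = -(1 / p - 1) by ring, Real.rpow_neg (ma_pos _).le]
          field_simp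
      _ ≤ mu ({(j, true)} : Set Om) ^ (1 - 1 / p)
          * eLpNorm (mdiff mu FF (gg p) 1) ∞ (mu.restrict {(j, true)}) := by
          rw [h9]
          exact mul_le_mul_right h1 _
      _ ≤ _ := mul_le_mul_right le_add_self _
  have hlim : Tendsto (fun j : ℕ => ENNReal.ofReal (2 / 5 * ((2 / 3 : ℝ) * 2 ^ j) ^ (1 / p - 1)))
      atTop (𝓝 ∞) := by
    rw [ENNReal.tendsto_ofReal_nhds_top]
    apply Tendsto.const_mul_atTop (by norm_num)
    apply (tendsto_rpow_atTop hexp).comp
    apply Tendsto.const_mul_atTop (by norm_num)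
    exact tendsto_pow_atTop_atTop_of_one_lt (by norm_num)
  exact top_le_iff.1 (le_of_tendsto' hlim key)

/-- **The dual of `H_p` is not `Λ_{p,q}`.** For all `0 < p < 1 < q < ∞` there are a filtered
probability space and a bounded `g` such that `f ↦ ∫ f g dμ` is bounded in the quasi-norm of `H_p`
but is not represented by any `g'` in `Λ_{p,q}`; even the smaller, local norm is infinite for every
integrable `g'` that defines the same functional. -/
theorem result (p q : ℝ) (hp0 : 0 < p) (hp1 : p < 1) (_hq : 1 < q) :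
    ∃ (Ω : Type) (m0 : MeasurableSpace Ω) (μ : Measure Ω) (𝓕 : Filtration ℕ m0),
      IsProbabilityMeasure μ ∧ ⨆ k, (𝓕 k : MeasurableSpace Ω) = m0 ∧
      ∃ g : Ω → ℂ, MemLp g ∞ μ ∧ BddOnHp μ 𝓕 p g ∧
        ∀ g' : Ω → ℂ, Integrable g' μ → SameFunctional μ g g' →
          lamNormLocal μ 𝓕 p q g' = ∞ ∧ lamNorm μ 𝓕 p q g' = ∞ := by
  refine ⟨Om, instMS, mu, FF, inferInstance, iSup_FF, gg p, memLp_gg hp0 hp1,
    bddOnHp_gg hp0 hp1, fun g' _ hsame => ?_⟩
  have h := lamNormLocal_gg q hp0 hp1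
  rw [← eq_of_same hsame]
  refine ⟨h, ?_⟩
  have h2 := lamNormLocal_le mu FF p q (gg p)
  rw [h] at h2
  exact top_le_iff.1 h2

end Pool.Agent.Results.MP_fbca0c_an.DualityFails
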